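import Mathlib

set_option autoImplicit false

namespace Pool.Agent.R15.RW

open Classical

variable {V : Type*}

/-- The adjacencies of `x` to the vertices outside `X`, as a vector over `F_2` (the entries at the
vertices of `X` are zero). -/
noncomputable def row (G : SimpleGraph V) (X : Set V) (x : V) : V → ZMod 2 :=
  fun y => if y ∉ X ∧ G.Adj x y then 1 else 0

/-- The cut-rank of `X`: the rank over `F_2` of the adjacency matrix between `X` (rows) and the
complement of `X` (columns). -/
noncomputable def cutRank (G : SimpleGraph V) (X : Set V) : ℕ :=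
  Set.finrank (ZMod 2) (row G X '' X)

/-- `X` is the set of leaves of a binary tree such that for every node the set of the leaves below
that node has cut-rank at most `w`. -/
inductive HasDec (G : SimpleGraph V) (w : ℕ) : Set V → Prop
  | leaf (v : V) : cutRank G {v} ≤ w → HasDec G w {v}
  | node (A B : Set V) : HasDec G w A → HasDec G w B → Disjoint A B → cutRank G (A ∪ B) ≤ w →
      HasDec G w (A ∪ B)

/-- The rank-width of the graph `G` is at most `w`: there is a binary tree whose leaves are the
vertices of `G` and all of whose nodes have cut-rank at most `w` (no condition if there is at most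
one vertex). -/
def RankWidthLe (G : SimpleGraph V) (w : ℕ) : Prop := Nat.card V ≤ 1 ∨ HasDec G w Set.univ

theorem HasDec.mono {G : SimpleGraph V} {w w' : ℕ} (h : w ≤ w') {X : Set V} (hX : HasDec G w X) :
    HasDec G w' X := by
  induction hX with
  | leaf v hv => exact HasDec.leaf v (hv.trans h)
  | node A B _ _ hd hc ihA ihB => exact HasDec.node A B ihA ihB hd (hc.trans h)

/-- the elements of `U` in `X` -/
noncomputable def inn (U : Finset V) (X : Set V) : Finset V := U.filter (fun x => x ∈ X)

theorem mem_inn {U : Finset V} {X : Set V} {x : V} : x ∈ inn U X ↔ x ∈ U ∧ x ∈ X := by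
  unfold inn
  rw [Finset.mem_filter]

/-- a balanced separation -/
theorem HasDec.sep {G : SimpleGraph V} {w : ℕ} (U : Finset V) {m : ℕ} (hm : 1 ≤ m) {Y : Set V}
    (hY : HasDec G w Y) (hmY : m ≤ (inn U Y).card) :
    ∃ X : Set V, cutRank G X ≤ w ∧ m ≤ (inn U X).card ∧ (inn U X).card ≤ 2 * m := by
  induction hY with
  | leaf v hv =>
    refine ⟨{v}, hv, hmY, ?_⟩
    have : (inn U {v}).card ≤ 1 := by
      rw [Finset.card_le_one]
      intro a ha b hb
      rw [mem_inn] at ha hb
      rw [ha.2, hb.2]
    omega
  | node A B hA hB hd hc ihA ihB =>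
    by_cases h1 : m ≤ (inn U A).card
    · exact ihA h1
    · by_cases h2 : m ≤ (inn U B).card
      · exact ihB h2
      · refine ⟨A ∪ B, hc, hmY, ?_⟩
        have h3 : (inn U (A ∪ B)).card ≤ (inn U A).card + (inn U B).card := by
          calc _ ≤ (inn U A ∪ inn U B).card := by
                apply Finset.card_le_card
                intro x hx
                rw [mem_inn] at hx
                rw [Finset.mem_union, mem_inn, mem_inn]
                rcases hx.2 with h | h
                · exact Or.inl ⟨hx.1, h⟩
                · exact Or.inr ⟨hx.1, h⟩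
            _ ≤ _ := Finset.card_union_le _ _
        omega

/-- few different rows -/
theorem card_rows [Finite V] {G : SimpleGraph V} {w : ℕ} {X : Set V} (h : cutRank G X ≤ w)
    (R : Finset (V → ZMod 2)) (hR : ∀ r ∈ R, ∃ a ∈ X, row G X a = r) : R.card ≤ 2 ^ w := by
  have := Fintype.ofFinite V
  set W : Submodule (ZMod 2) (V → ZMod 2) := Submodule.span (ZMod 2) (row G X '' X) with hW
  have h1 : Nat.card W = 2 ^ Module.finrank (ZMod 2) W := by
    rw [Module.natCard_eq_pow_finrank (K := ZMod 2)]
    simp
  have h2 : Nat.card W ≤ 2 ^ w := by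
    rw [h1]
    exact Nat.pow_le_pow_right (by norm_num) h
  refine le_trans ?_ h2
  have h3 : (R : Set (V → ZMod 2)) ⊆ W := by
    intro r hr
    obtain ⟨a, ha, rfl⟩ := hR r hr
    exact Submodule.subset_span ⟨a, ha, rfl⟩
  calc R.card = (R : Set (V → ZMod 2)).ncard := (Set.ncard_coe_finset _).symm
    _ ≤ (W : Set (V → ZMod 2)).ncard := Set.ncard_le_ncard h3 (Set.toFinite _)
    _ = Nat.card W := rfl

/-- a homogeneous pair across the cut -/
theorem split [Finite V] {G : SimpleGraph V} {w : ℕ} {X : Set V} (h : cutRank G X ≤ w)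
    (A B : Finset V) (hA : ∀ a ∈ A, a ∈ X) (hB : ∀ b ∈ B, b ∉ X) (hAne : A.Nonempty) :
    ∃ A' B' : Finset V, A' ⊆ A ∧ B' ⊆ B ∧ A.card ≤ 2 ^ w * A'.card ∧ B.card ≤ 2 * B'.card ∧
      ((∀ a ∈ A', ∀ b ∈ B', G.Adj a b) ∨ (∀ a ∈ A', ∀ b ∈ B', ¬ G.Adj a b)) := by
  -- a large fibre
  obtain ⟨r, hr⟩ : ∃ r, A.card ≤ 2 ^ w * (A.filter (fun a => row G X a = r)).card := by
    by_contra hcon
    push Not at hcon
    have h1 := card_rows h (A.image (row G X)) (by
      intro r hr
      obtain ⟨a, ha, har⟩ := Finset.mem_image.mp hr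
      exact ⟨a, hA a ha, har⟩)
    have h2 : A.card = ∑ r ∈ A.image (row G X), (A.filter (fun a => row G X a = r)).card :=
      Finset.card_eq_sum_card_image _ _
    have h3 : 2 ^ w * A.card < (A.image (row G X)).card * A.card := by
      calc 2 ^ w * A.card = ∑ r ∈ A.image (row G X),
            2 ^ w * (A.filter (fun a => row G X a = r)).card := by
              rw [← Finset.mul_sum, ← h2]
        _ < ∑ _r ∈ A.image (row G X), A.card :=
            Finset.sum_lt_sum_of_nonempty (hAne.image _) (fun r _ => hcon r)
        _ = _ := by rw [Finset.sum_const, smul_eq_mul]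
    have h4 : (A.image (row G X)).card * A.card ≤ 2 ^ w * A.card := Nat.mul_le_mul_right _ h1
    omega
  have hadj : ∀ a ∈ A.filter (fun a => row G X a = r), ∀ b ∈ B, (G.Adj a b ↔ r b = 1) := by
    intro a ha b hb
    rw [Finset.mem_filter] at ha
    rw [← ha.2]
    unfold row
    constructor
    · intro h
      rw [if_pos ⟨hB b hb, h⟩]
    · intro h
      by_contra hn
      rw [if_neg (fun h' => hn h'.2)] at h
      exact zero_ne_one h
  have hc := Finset.card_filter_add_card_filter_not (s := B) (p := fun b => r b = 1)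
  by_cases h1 : B.card ≤ 2 * (B.filter (fun b => r b = 1)).card
  · refine ⟨_, B.filter (fun b => r b = 1), Finset.filter_subset _ _, Finset.filter_subset _ _,
      hr, h1, Or.inl ?_⟩
    intro a ha b hb
    rw [Finset.mem_filter] at hb
    exact (hadj a ha b hb.1).mpr hb.2
  · refine ⟨_, B.filter (fun b => ¬ r b = 1), Finset.filter_subset _ _, Finset.filter_subset _ _,
      hr, by omega, Or.inr ?_⟩
    intro a ha b hb
    rw [Finset.mem_filter] at hb
    exact fun h => hb.2 ((hadj a ha b hb.1).mp h)

end Pool.Agent.R15.RW
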