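import Mathlib
import Pool.Agent.R15.RW.Def
import Pool.Agent.R760.BR3

set_option autoImplicit false

namespace Pool.Agent.R15.RW

open Classical

section lin
variable {M N : Type*} [AddCommGroup M] [Module (ZMod 2) M] [AddCommGroup N] [Module (ZMod 2) N]

theorem finrank_image_le [Module.Finite (ZMod 2) M] (f : M →ₗ[ZMod 2] N) (S : Set M) :
    Set.finrank (ZMod 2) (f '' S) ≤ Set.finrank (ZMod 2) S := by
  unfold Set.finrank
  rw [← Submodule.map_span]
  exact Submodule.finrank_map_le _ _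

theorem finrank_mono' [Module.Finite (ZMod 2) M] {S T : Set M} (h : S ⊆ T) :
    Set.finrank (ZMod 2) S ≤ Set.finrank (ZMod 2) T := by
  unfold Set.finrank
  exact Submodule.finrank_mono (Submodule.span_mono h)

end lin

variable {V : Type*}

theorem row_one {G : SimpleGraph V} {X : Set V} {x y : V} (h1 : y ∉ X) (h2 : G.Adj x y) :
    row G X x y = 1 := if_pos ⟨h1, h2⟩

theorem row_zero {G : SimpleGraph V} {X : Set V} {x y : V} (h : ¬ (y ∉ X ∧ G.Adj x y)) :
    row G X x y = 0 := if_neg h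

/-- the cut-rank after adding a column of ones -/
noncomputable def cutP (G : SimpleGraph V) (X : Set V) : ℕ :=
  Set.finrank (ZMod 2) ((fun x => (row G X x, (1 : ZMod 2))) '' X)

inductive HasDecP (G : SimpleGraph V) (w : ℕ) : Set V → Prop
  | leaf (v : V) : cutP G {v} ≤ w → HasDecP G w {v}
  | node (A B : Set V) : HasDecP G w A → HasDecP G w B → Disjoint A B → cutP G (A ∪ B) ≤ w →
      HasDecP G w (A ∪ B)

theorem cutRank_le_cutP [Finite V] (G : SimpleGraph V) (X : Set V) : cutRank G X ≤ cutP G X := by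
  have := Fintype.ofFinite V
  unfold cutRank cutP
  have h : row G X '' X = (LinearMap.fst (ZMod 2) (V → ZMod 2) (ZMod 2)) ''
      ((fun x => (row G X x, (1 : ZMod 2))) '' X) := by
    rw [Set.image_image]
    rfl
  rw [h]
  exact finrank_image_le _ _

theorem HasDecP.toHasDec [Finite V] {G : SimpleGraph V} {w : ℕ} {X : Set V}
    (h : HasDecP G w X) : HasDec G w X := by
  induction h with
  | leaf v hv => exact HasDec.leaf v ((cutRank_le_cutP G _).trans hv)
  | node A B _ _ hd hc ihA ihB => exact HasDec.node A B ihA ihB hd ((cutRank_le_cutP G _).trans hc)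

/-- no homogeneous set with more than `s` elements -/
def HomLe (G : SimpleGraph V) (s : ℕ) : Prop :=
  (∀ K : Finset V, (∀ a ∈ K, ∀ b ∈ K, a ≠ b → G.Adj a b) → K.card ≤ s) ∧
  (∀ K : Finset V, (∀ a ∈ K, ∀ b ∈ K, a ≠ b → ¬ G.Adj a b) → K.card ≤ s)

section lex
variable {α β : Type*}

/-- the lexicographic product -/
def lex (H : SimpleGraph α) (G : SimpleGraph β) : SimpleGraph (α × β) where
  Adj p q := H.Adj p.1 q.1 ∨ (p.1 = q.1 ∧ G.Adj p.2 q.2)
  symm := ⟨fun p q h => by
    rcases h with h | h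
    · exact Or.inl h.symm
    · exact Or.inr ⟨h.1.symm, h.2.symm⟩⟩
  loopless := ⟨fun p h => by
    rcases h with h | h
    · exact H.loopless.irrefl _ h
    · exact G.loopless.irrefl _ h.2⟩

theorem lex_adj (H : SimpleGraph α) (G : SimpleGraph β) (p q : α × β) :
    (lex H G).Adj p q ↔ H.Adj p.1 q.1 ∨ (p.1 = q.1 ∧ G.Adj p.2 q.2) := Iff.rfl

theorem HomLe.lex {H : SimpleGraph α} {G : SimpleGraph β} {s t : ℕ} (hH : HomLe H s)
    (hG : HomLe G t) : HomLe (lex H G) (t * s) := by
  constructor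
  · intro K hK
    refine (Finset.card_le_mul_card_image (f := Prod.fst) K t ?_).trans
      (Nat.mul_le_mul_left _ (hH.1 _ ?_))
    · intro a _
      have : ((K.filter (fun x => x.1 = a)).image Prod.snd).card =
          (K.filter (fun x => x.1 = a)).card := by
        apply Finset.card_image_of_injOn
        intro x hx y hy hxy
        simp only [Finset.coe_filter, Set.mem_ofPred_eq] at hx hy
        exact Prod.ext (hx.2.trans hy.2.symm) hxy
      rw [← this]
      apply hG.1
      intro b hb b' hb' hbb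
      rw [Finset.mem_image] at hb hb'
      obtain ⟨x, hx, rfl⟩ := hb
      obtain ⟨y, hy, rfl⟩ := hb'
      rw [Finset.mem_filter] at hx hy
      have h1 := hK x hx.1 y hy.1 (fun h => hbb (by rw [h]))
      rcases h1 with h1 | h1
      · rw [hx.2, hy.2] at h1
        exact absurd h1 (H.loopless.irrefl a)
      · exact h1.2
    · intro a ha a' ha' haa
      rw [Finset.mem_image] at ha ha'
      obtain ⟨x, hx, rfl⟩ := ha
      obtain ⟨y, hy, rfl⟩ := ha'
      have h1 := hK x hx y hy (fun h => haa (by rw [h]))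
      rcases h1 with h1 | h1
      · exact h1
      · exact absurd h1.1 haa
  · intro K hK
    refine (Finset.card_le_mul_card_image (f := Prod.fst) K t ?_).trans
      (Nat.mul_le_mul_left _ (hH.2 _ ?_))
    · intro a _
      have : ((K.filter (fun x => x.1 = a)).image Prod.snd).card =
          (K.filter (fun x => x.1 = a)).card := by
        apply Finset.card_image_of_injOn
        intro x hx y hy hxy
        simp only [Finset.coe_filter, Set.mem_ofPred_eq] at hx hy
        exact Prod.ext (hx.2.trans hy.2.symm) hxy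
      rw [← this]
      apply hG.2
      intro b hb b' hb' hbb h
      rw [Finset.mem_image] at hb hb'
      obtain ⟨x, hx, rfl⟩ := hb
      obtain ⟨y, hy, rfl⟩ := hb'
      rw [Finset.mem_filter] at hx hy
      exact hK x hx.1 y hy.1 (fun h => hbb (by rw [h])) (Or.inr ⟨hx.2.trans hy.2.symm, h⟩)
    · intro a ha a' ha' haa h
      rw [Finset.mem_image] at ha ha'
      obtain ⟨x, hx, rfl⟩ := ha
      obtain ⟨y, hy, rfl⟩ := ha'
      exact hK x hx y hy (fun h => haa (by rw [h])) (Or.inl h)

/-- the rows inside a module -/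
noncomputable def phi (H : SimpleGraph α) (a : α) :
    ((β → ZMod 2) × ZMod 2) →ₗ[ZMod 2] ((α × β → ZMod 2) × ZMod 2) where
  toFun r := (fun p => if p.1 = a then r.1 p.2 else if H.Adj a p.1 then r.2 else 0, r.2)
  map_add' r s := by
    ext p
    · simp only [Prod.fst_add, Prod.snd_add, Pi.add_apply]
      split_ifs <;> simp
    · simp
  map_smul' c r := by
    ext p
    · simp only [Prod.smul_fst, Prod.smul_snd, Pi.smul_apply, smul_eq_mul, RingHom.id_apply]
      split_ifs <;> simp
    · simp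

theorem cutP_module [Finite α] [Finite β] (H : SimpleGraph α) (G : SimpleGraph β) (a : α)
    (X : Set β) : cutP (lex H G) {p | p.1 = a ∧ p.2 ∈ X} ≤ cutP G X := by
  have := Fintype.ofFinite α
  have := Fintype.ofFinite β
  unfold cutP
  refine le_trans (finrank_mono' (T := phi H a '' ((fun x => (row G X x, (1 : ZMod 2))) '' X)) ?_)
    (finrank_image_le _ _)
  rintro _ ⟨⟨a', x⟩, ⟨rfl, hx⟩, rfl⟩
  refine ⟨_, ⟨x, hx, rfl⟩, ?_⟩
  refine Prod.ext ?_ rfl
  funext p
  obtain ⟨b, y⟩ := p
  change (if b = a' then row G X x y else if H.Adj a' b then (1 : ZMod 2) else 0) =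
    row (lex H G) {p | p.1 = a' ∧ p.2 ∈ X} (a', x) (b, y)
  by_cases hb : b = a'
  · subst hb
    rw [if_pos rfl]
    by_cases hy : y ∉ X ∧ G.Adj x y
    · rw [row_one hy.1 hy.2, row_one (fun h => hy.1 h.2) (Or.inr ⟨rfl, hy.2⟩)]
    · rw [row_zero hy, row_zero]
      rintro ⟨h1, h2⟩
      apply hy
      refine ⟨fun h => h1 ⟨rfl, h⟩, ?_⟩
      rcases h2 with h2 | h2
      · exact absurd h2 (H.loopless.irrefl b)
      · exact h2.2
  · rw [if_neg hb]
    by_cases hab : H.Adj a' b
    · rw [if_pos hab, row_one (fun h => hb h.1) (Or.inl hab)]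
    · rw [if_neg hab, row_zero]
      rintro ⟨_, h2 | h2⟩
      · exact hab h2
      · exact hb h2.1.symm

/-- the rows of a union of modules -/
noncomputable def psi : ((α → ZMod 2) × ZMod 2) →ₗ[ZMod 2] ((α × β → ZMod 2) × ZMod 2) where
  toFun r := (fun p => r.1 p.1, r.2)
  map_add' _ _ := rfl
  map_smul' _ _ := rfl

theorem cutP_modules [Finite α] [Finite β] (H : SimpleGraph α) (G : SimpleGraph β) (S : Set α) :
    cutP (lex H G) {p | p.1 ∈ S} ≤ cutP H S := by
  have := Fintype.ofFinite α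
  have := Fintype.ofFinite β
  unfold cutP
  refine le_trans (finrank_mono' (T := (psi (α := α) (β := β)) ''
    ((fun x => (row H S x, (1 : ZMod 2))) '' S)) ?_) (finrank_image_le _ _)
  rintro _ ⟨⟨a, x⟩, ha, rfl⟩
  refine ⟨_, ⟨a, ha, rfl⟩, ?_⟩
  refine Prod.ext ?_ rfl
  funext p
  obtain ⟨b, y⟩ := p
  change row H S a b = row (lex H G) {p | p.1 ∈ S} (a, x) (b, y)
  by_cases hb : b ∉ S ∧ H.Adj a b
  · rw [row_one hb.1 hb.2, row_one (G := lex H G) (X := {p : α × β | p.1 ∈ S}) (x := (a, x))
      (y := (b, y)) (fun h => hb.1 h) (Or.inl hb.2)]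
  · rw [row_zero hb, row_zero]
    rintro ⟨h1, h2 | h2⟩
    · exact hb ⟨fun h => h1 h, h2⟩
    · have e : a = b := h2.1
      exact h1 (show b ∈ S from by rw [← e]; exact ha)

theorem HasDecP.module [Finite α] [Finite β] (H : SimpleGraph α) {G : SimpleGraph β} {w : ℕ}
    {X : Set β} (h : HasDecP G w X) (a : α) : HasDecP (lex H G) w {p | p.1 = a ∧ p.2 ∈ X} := by
  induction h with
  | leaf v hv =>
    have he : {p : α × β | p.1 = a ∧ p.2 ∈ ({v} : Set β)} = {(a, v)} := by
      ext p
      simp only [Set.mem_ofPred_eq, Set.mem_singleton_iff]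
      constructor
      · rintro ⟨h1, h2⟩; exact Prod.ext h1 h2
      · rintro rfl; exact ⟨rfl, rfl⟩
    have h2 := (cutP_module H G a {v}).trans hv
    rw [he] at h2 ⊢
    exact HasDecP.leaf _ h2
  | node A B hA hB hd hc ihA ihB =>
    have he : {p : α × β | p.1 = a ∧ p.2 ∈ A ∪ B} =
        {p | p.1 = a ∧ p.2 ∈ A} ∪ {p | p.1 = a ∧ p.2 ∈ B} := by
      ext p
      simp only [Set.mem_ofPred_eq, Set.mem_union]
      tauto
    have h2 := (cutP_module H G a (A ∪ B)).trans hc
    rw [he] at h2 ⊢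
    refine HasDecP.node _ _ ihA ihB ?_ h2
    rw [Set.disjoint_left] at hd ⊢
    exact fun p hp hp' => hd hp.2 hp'.2

theorem HasDecP.modules [Finite α] [Finite β] (H : SimpleGraph α) {G : SimpleGraph β} {w : ℕ}
    (h : HasDecP G w Set.univ) (hH : ∀ S : Set α, cutP H S ≤ w) (S : Finset α)
    (hS : S.Nonempty) : HasDecP (lex H G) w {p | p.1 ∈ S} := by
  induction hS using Finset.Nonempty.cons_induction with
  | singleton a =>
    have he : {p : α × β | p.1 ∈ ({a} : Finset α)} = {p | p.1 = a ∧ p.2 ∈ Set.univ} := by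
      ext p; simp
    rw [he]
    exact h.module H a
  | cons a S ha hS ih =>
    have he : {p : α × β | p.1 ∈ Finset.cons a S ha} =
        {p | p.1 = a ∧ p.2 ∈ Set.univ} ∪ {p | p.1 ∈ S} := by
      ext p; simp
    have h2 := (cutP_modules H G ((Finset.cons a S ha : Finset α) : Set α)).trans (hH _)
    have he2 : {p : α × β | p.1 ∈ ((Finset.cons a S ha : Finset α) : Set α)} =
        {p | p.1 = a ∧ p.2 ∈ Set.univ} ∪ {p | p.1 ∈ S} := by
      rw [← he]; ext p; simp
    rw [he2] at h2
    rw [he]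
    refine HasDecP.node _ _ (h.module H a) ih ?_ h2
    rw [Set.disjoint_left]
    rintro p ⟨h1, _⟩ h3
    rw [Set.mem_ofPred_eq, h1] at h3
    exact ha h3

end lex

theorem cutP_singleton [Finite V] (G : SimpleGraph V) (v : V) : cutP G {v} ≤ 1 := by
  have := Fintype.ofFinite V
  unfold cutP Set.finrank
  rw [Set.image_singleton]
  exact (finrank_span_le_card _).trans (by simp)

/-- powers -/
theorem power {n₀ s r : ℕ} (hn : 1 ≤ n₀) (hr : 1 ≤ r) (H : SimpleGraph (Fin n₀)) (hH : HomLe H s)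
    (hP : ∀ S : Set (Fin n₀), cutP H S ≤ r) : ∀ t : ℕ, ∃ (V : Type) (_ : Fintype V)
    (G : SimpleGraph V), Fintype.card V = n₀ ^ t ∧ HasDecP G r Set.univ ∧ HomLe G (s ^ t) := by
  intro t
  induction t with
  | zero =>
    refine ⟨Unit, inferInstance, ⊥, by simp, ?_, ?_⟩
    · have : (Set.univ : Set Unit) = {()} := by ext; simp
      rw [this]
      exact HasDecP.leaf _ ((cutP_singleton _ _).trans hr)
    · have h1 : ∀ K : Finset Unit, K.card ≤ s ^ 0 := by
        intro K
        rw [pow_zero]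
        exact (Finset.card_le_univ K).trans (by simp)
      exact ⟨fun K _ => h1 K, fun K _ => h1 K⟩
  | succ t ih =>
    obtain ⟨V, hV, G, h1, h2, h3⟩ := ih
    refine ⟨Fin n₀ × V, inferInstance, lex H G, ?_, ?_, ?_⟩
    · rw [Fintype.card_prod, Fintype.card_fin, h1, pow_succ, mul_comm]
    · have hne : (Finset.univ : Finset (Fin n₀)).Nonempty := ⟨⟨0, hn⟩, Finset.mem_univ _⟩
      have := HasDecP.modules H h2 hP Finset.univ hne
      have he : {p : Fin n₀ × V | p.1 ∈ (Finset.univ : Finset (Fin n₀))} = Set.univ := by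
        ext p; simp
      rw [he] at this
      exact this
    · rw [pow_succ]
      exact hH.lex h3

/-- small rank -/
theorem cutP_rank {n r : ℕ} (H : SimpleGraph (Fin n)) (M : Matrix (Fin n) (Fin n) (ZMod 2))
    (hM : M.rank ≤ r) (h : ∀ i j, i ≠ j → (M i j = 1 ↔ H.Adj i j)) (S : Set (Fin n)) :
    cutP H S ≤ r + 1 := by
  let rho : ((Fin n → ZMod 2) × ZMod 2) →ₗ[ZMod 2] ((Fin n → ZMod 2) × ZMod 2) :=
    { toFun := fun x => (fun y => if y ∉ S then x.1 y else 0, x.2)
      map_add' := by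
        intro x y
        ext p
        · simp only [Prod.fst_add, Pi.add_apply]
          split_ifs <;> simp
        · simp
      map_smul' := by
        intro c x
        ext p
        · simp only [Prod.smul_fst, Pi.smul_apply, smul_eq_mul, RingHom.id_apply]
          split_ifs <;> simp
        · simp }
  set W : Submodule (ZMod 2) (Fin n → ZMod 2) :=
    Submodule.span (ZMod 2) (Set.range M.row) with hW
  have hWr : Module.finrank (ZMod 2) W ≤ r := by
    rw [hW, ← Matrix.rank_eq_finrank_span_row]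
    exact hM
  have h2 : ∀ z : ZMod 2, z = 0 ∨ z = 1 := by decide
  let j : (W × ZMod 2) →ₗ[ZMod 2] ((Fin n → ZMod 2) × ZMod 2) :=
    W.subtype.prodMap LinearMap.id
  have hsub : Submodule.span (ZMod 2) ((fun x => (row H S x, (1 : ZMod 2))) '' S) ≤
      LinearMap.range (rho ∘ₗ j) := by
    rw [Submodule.span_le]
    rintro _ ⟨a, ha, rfl⟩
    refine ⟨(⟨M.row a, Submodule.subset_span ⟨a, rfl⟩⟩, 1), ?_⟩
    refine Prod.ext ?_ rfl
    funext y
    change (if y ∉ S then M a y else 0) = row H S a y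
    by_cases hy : y ∈ S
    · rw [if_neg (fun h' => h' hy), row_zero (fun h' => h'.1 hy)]
    · have hay : a ≠ y := fun e => hy (e ▸ ha)
      rw [if_pos hy]
      by_cases hadj : H.Adj a y
      · rw [row_one hy hadj]
        exact (h a y hay).mpr hadj
      · rw [row_zero (fun h' => hadj h'.2)]
        rcases h2 (M a y) with h3 | h3
        · exact h3
        · exact absurd ((h a y hay).mp h3) hadj
  unfold cutP Set.finrank
  refine (Submodule.finrank_mono hsub).trans ((LinearMap.finrank_range_le _).trans ?_)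
  rw [Module.finrank_prod, Module.finrank_self]
  omega

theorem homLe_of_cliqueFree {G : SimpleGraph V} {k : ℕ} (h1 : G.CliqueFree k)
    (h2 : Gᶜ.CliqueFree k) : HomLe G (k - 1) := by
  constructor
  · intro K hK
    by_contra hcon
    push Not at hcon
    obtain ⟨Q, hQ, hQc⟩ := Finset.exists_subset_card_eq (s := K) (n := k) (by omega)
    apply h1 Q
    rw [SimpleGraph.isNClique_iff]
    exact ⟨fun a ha b hb hab => hK a (hQ ha) b (hQ hb) hab, hQc⟩
  · intro K hK
    by_contra hcon
    push Not at hcon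
    obtain ⟨Q, hQ, hQc⟩ := Finset.exists_subset_card_eq (s := K) (n := k) (by omega)
    apply h2 Q
    rw [SimpleGraph.isNClique_iff]
    refine ⟨fun a ha b hb hab => ?_, hQc⟩
    rw [SimpleGraph.compl_adj]
    exact ⟨hab, hK a (hQ ha) b (hQ hb) hab⟩

theorem HomLe.cliqueFree {G : SimpleGraph V} {s k : ℕ} (h : HomLe G s) (hk : s < k) :
    G.CliqueFree k ∧ Gᶜ.CliqueFree k := by
  constructor
  · intro Q hQ
    rw [SimpleGraph.isNClique_iff] at hQ
    have := h.1 Q (fun a ha b hb hab => hQ.1 ha hb hab)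
    omega
  · intro Q hQ
    rw [SimpleGraph.isNClique_iff] at hQ
    have := h.2 Q (fun a ha b hb hab => ((SimpleGraph.compl_adj _ _ _).mp (hQ.1 ha hb hab)).2)
    omega

/-- the lower bound -/
theorem lower (w k : ℕ) (hw : 13 ≤ w) (hk : w ≤ k) :
    ∃ (V : Type) (_ : Fintype V) (G : SimpleGraph V), RankWidthLe G w ∧ G.CliqueFree k ∧
      Gᶜ.CliqueFree k ∧
      (w : ℝ) / (20 * Real.log w) * Real.log k ≤ Real.log (Fintype.card V) := by
  set m := (w - 1) / 2 with hm
  have hm6 : 6 ≤ m := by omega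
  set q := m / 2 with hq
  have hq3 : 12 * q ≥ 5 * m := by omega
  have hm7 : 7 * m ≥ 3 * w := by omega
  have hmw : 2 * m + 1 ≤ w := by omega
  -- the base
  obtain ⟨H, M, h1, h2, _, h4, h5⟩ := R760.BR.lower_nat (n := 2 ^ q) (m := m) (k := 2 * m) (by
    have ht := R760.BR.two_tri m
    rw [← pow_mul, ← pow_add]
    apply Nat.pow_lt_pow_right (by norm_num)
    have e1 : 2 * q ≤ m := by omega
    have e2 : q * (2 * m) ≤ m * m := by nlinarith
    have e3 : m * (m + 1) = m * m + m := by ring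
    have e4 : m * (2 * m) = 2 * (m * m) := by ring
    have e5 : 6 * m ≤ m * m := Nat.mul_le_mul_right _ hm6
    omega)
  have hH := homLe_of_cliqueFree h1 h2
  have hP : ∀ S : Set (Fin (2 ^ q)), cutP H S ≤ w :=
    fun S => (cutP_rank H M h4 h5 S).trans hmw
  set t := Nat.log (2 * m) k with ht
  obtain ⟨V, hV, G, hcard, hdec, hhom⟩ := power (Nat.one_le_two_pow) (by omega : 1 ≤ w) H hH hP t
  have ht1 : 1 ≤ t := Nat.log_pos (by omega) (by omega)
  have hpow : (2 * m) ^ t ≤ k := Nat.pow_log_le_self _ (by omega)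
  have hlt : (2 * m - 1) ^ t < k :=
    lt_of_lt_of_le (Nat.pow_lt_pow_left (by omega) (by omega)) hpow
  obtain ⟨c1, c2⟩ := hhom.cliqueFree hlt
  refine ⟨V, hV, G, Or.inr hdec.toHasDec, c1, c2, ?_⟩
  rw [hcard]
  push_cast
  rw [← pow_mul, Real.log_pow]
  have hw0 : (13 : ℝ) ≤ w := by exact_mod_cast hw
  have hlw : 0 < Real.log w := Real.log_pos (by linarith)
  have hk0 : (w : ℝ) ≤ k := by exact_mod_cast hk
  have hlk : 0 < Real.log k := Real.log_pos (by linarith)
  -- t is large
  have hup : k < (2 * m) ^ (t + 1) := Nat.lt_pow_succ_log_self (by omega) k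
  have hup2 : Real.log k ≤ (t + 1 : ℝ) * Real.log w := by
    have h6 : (k : ℝ) ≤ (w : ℝ) ^ (t + 1) := by
      have h7 : k ≤ w ^ (t + 1) := hup.le.trans (Nat.pow_le_pow_left (by omega) _)
      exact_mod_cast h7
    calc Real.log k ≤ Real.log ((w : ℝ) ^ (t + 1)) := Real.log_le_log (by linarith) h6
      _ = _ := by rw [Real.log_pow]; push_cast; ring
  have ht1' : (1 : ℝ) ≤ t := by exact_mod_cast ht1
  have hup3 : Real.log k ≤ 2 * t * Real.log w := by nlinarith
  have hl2 : 0.69 < Real.log 2 := lt_trans (by norm_num) Real.log_two_gt_d9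
  have hqr : (5 : ℝ) / 28 * w ≤ q := by
    have e1 : (12 * q : ℝ) ≥ 5 * m := by exact_mod_cast hq3
    have e2 : (7 * m : ℝ) ≥ 3 * w := by exact_mod_cast hm7
    linarith
  have key : (w : ℝ) / (20 * Real.log w) * Real.log k ≤ (w : ℝ) / 10 * t := by
    rw [div_mul_eq_mul_div, div_le_iff₀ (by positivity)]
    nlinarith [mul_le_mul_of_nonneg_left hup3 (by linarith : (0 : ℝ) ≤ w)]
  refine key.trans ?_
  push_cast
  have h8 : (w : ℝ) / 10 ≤ q * Real.log 2 := by nlinarith
  nlinarith [mul_le_mul_of_nonneg_right h8 (by linarith : (0 : ℝ) ≤ t)]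

end Pool.Agent.R15.RW
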