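import Mathlib
import Pool.Agent.R15.RW.Def

set_option autoImplicit false

namespace Pool.Agent.R15.RW

open Classical

variable {V : Type*}

/-- large homogeneous sets: the product of the sizes of a clique and of an independent set -/
theorem induct [Finite V] {G : SimpleGraph V} {w : ℕ} (hG : HasDec G w Set.univ) {c : ℝ}
    (hc0 : 0 ≤ c) (hc1 : c ≤ 1) (hc : (1 : ℝ) ≤ (1 / (5 * 2 ^ w)) ^ c + (1 / 6) ^ c) :
    ∀ (N : ℕ) (U : Finset V), U.card = N → U.Nonempty → ∃ Q R : Finset V, Q ⊆ U ∧ R ⊆ U ∧
      (∀ a ∈ Q, ∀ b ∈ Q, a ≠ b → G.Adj a b) ∧ (∀ a ∈ R, ∀ b ∈ R, ¬ G.Adj a b) ∧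
      (U.card : ℝ) ^ c ≤ (Q.card : ℝ) * R.card := by
  intro N
  induction N using Nat.strong_induction_on with
  | _ N ih =>
    intro U hU hne
    have hNpos : 1 ≤ N := by rw [← hU]; exact hne.card_pos
    rcases Nat.lt_or_ge N 3 with hN | hN
    · -- at most two vertices
      have hpow : (U.card : ℝ) ^ c ≤ U.card := by
        have h1 : (1 : ℝ) ≤ U.card := by rw [hU]; exact_mod_cast hNpos
        calc (U.card : ℝ) ^ c ≤ (U.card : ℝ) ^ (1 : ℝ) := Real.rpow_le_rpow_of_exponent_le h1 hc1
          _ = U.card := Real.rpow_one _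
      obtain ⟨u, hu⟩ := hne
      by_cases hadj : ∃ a ∈ U, ∃ b ∈ U, G.Adj a b
      · obtain ⟨a, ha, b, hb, hab⟩ := hadj
        have hUab : U = {a, b} := by
          symm
          apply Finset.eq_of_subset_of_card_le
          · intro x hx
            rw [Finset.mem_insert, Finset.mem_singleton] at hx
            rcases hx with rfl | rfl
            · exact ha
            · exact hb
          · rw [Finset.card_pair hab.ne]; omega
        refine ⟨U, {u}, subset_rfl, by simpa using hu, ?_, ?_, ?_⟩
        · intro x hx y hy hxy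
          rw [hUab, Finset.mem_insert, Finset.mem_singleton] at hx hy
          rcases hx with rfl | rfl <;> rcases hy with rfl | rfl
          · exact absurd rfl hxy
          · exact hab
          · exact hab.symm
          · exact absurd rfl hxy
        · intro x hx y hy
          rw [Finset.mem_singleton] at hx hy
          rw [hx, hy]; exact G.loopless.irrefl u
        · simpa using hpow
      · push Not at hadj
        refine ⟨{u}, U, by simpa using hu, subset_rfl, ?_, hadj, ?_⟩
        · intro x hx y hy hxy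
          rw [Finset.mem_singleton] at hx hy
          exact absurd (hx.trans hy.symm) hxy
        · simpa using hpow
    · -- at least three vertices
      have hinn : (inn U Set.univ).card = N := by
        rw [← hU]; congr 1; ext x; simp [mem_inn]
      obtain ⟨X, hX, h1, h2⟩ := hG.sep U (m := N / 3) (by omega) (by rw [hinn]; omega)
      set A := inn U X with hA
      set B := inn U Xᶜ with hB
      have hAB : A.card + B.card = N := by
        have hd : Disjoint A B := by
          rw [Finset.disjoint_left]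
          intro x hx hx'
          exact (mem_inn.mp hx').2 (mem_inn.mp hx).2
        rw [← Finset.card_union_of_disjoint hd, ← hU]
        congr 1
        ext x
        rw [Finset.mem_union, hA, hB, mem_inn, mem_inn]
        by_cases hx : x ∈ X
        · simp [hx]
        · simp [hx]
      have hAne : A.Nonempty := by rw [← Finset.card_pos]; omega
      obtain ⟨A', B', hA', hB', hcA, hcB, hom⟩ := split hX A B (fun a ha => (mem_inn.mp ha).2)
        (fun b hb => (mem_inn.mp hb).2) hAne
      have hNA : N ≤ 5 * 2 ^ w * A'.card := by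
        calc N ≤ 5 * A.card := by omega
          _ ≤ 5 * (2 ^ w * A'.card) := Nat.mul_le_mul_left _ hcA
          _ = _ := by ring
      have hNB : N ≤ 6 * B'.card := by omega
      have hA'ne : A'.Nonempty := by
        rw [← Finset.card_pos]
        rcases Nat.eq_zero_or_pos A'.card with h | h
        · rw [h] at hNA; omega
        · exact h
      have hB'ne : B'.Nonempty := by rw [← Finset.card_pos]; omega
      have hA'lt : A'.card < N := by
        have := Finset.card_le_card hA'
        omega
      have hB'lt : B'.card < N := by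
        have := Finset.card_le_card hB'
        have := hAne.card_pos
        omega
      obtain ⟨QA, RA, q1, r1, q2, r2, hQA⟩ := ih _ hA'lt A' rfl hA'ne
      obtain ⟨QB, RB, q3, r3, q4, r4, hQB⟩ := ih _ hB'lt B' rfl hB'ne
      have hAU : A' ⊆ U := fun x hx => (mem_inn.mp (hA' hx)).1
      have hBU : B' ⊆ U := fun x hx => (mem_inn.mp (hB' hx)).1
      have hdis : ∀ S T : Finset V, S ⊆ A' → T ⊆ B' → Disjoint S T := by
        intro S T hS hT
        rw [Finset.disjoint_left]
        intro x hx hx'
        exact (mem_inn.mp (hB' (hT hx'))).2 (mem_inn.mp (hA' (hS hx))).2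
      -- the inequality
      have hN0 : (0 : ℝ) ≤ N := Nat.cast_nonneg _
      have hw0 : (0 : ℝ) < 5 * 2 ^ w := by positivity
      have e1 : (N : ℝ) ^ c * (1 / (5 * 2 ^ w)) ^ c ≤ (A'.card : ℝ) ^ c := by
        rw [← Real.mul_rpow hN0 (by positivity)]
        apply Real.rpow_le_rpow (by positivity) _ hc0
        rw [mul_one_div, div_le_iff₀ hw0]
        have : (N : ℝ) ≤ 5 * 2 ^ w * A'.card := by exact_mod_cast hNA
        linarith
      have e2 : (N : ℝ) ^ c * (1 / 6) ^ c ≤ (B'.card : ℝ) ^ c := by
        rw [← Real.mul_rpow hN0 (by positivity)]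
        apply Real.rpow_le_rpow (by positivity) _ hc0
        have : (N : ℝ) ≤ 6 * B'.card := by exact_mod_cast hNB
        linarith
      have e3 : (U.card : ℝ) ^ c ≤ (QA.card : ℝ) * RA.card + (QB.card : ℝ) * RB.card := by
        rw [hU]
        have h0 : 0 ≤ (N : ℝ) ^ c := Real.rpow_nonneg hN0 _
        calc (N : ℝ) ^ c = (N : ℝ) ^ c * 1 := (mul_one _).symm
          _ ≤ (N : ℝ) ^ c * ((1 / (5 * 2 ^ w)) ^ c + (1 / 6) ^ c) := mul_le_mul_of_nonneg_left hc h0
          _ = (N : ℝ) ^ c * (1 / (5 * 2 ^ w)) ^ c + (N : ℝ) ^ c * (1 / 6) ^ c := by ring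
          _ ≤ _ := by linarith
      have comb : ∀ x y s t : ℕ, (x : ℝ) * s + (y : ℝ) * t ≤ ((x + y : ℕ) : ℝ) * (max s t : ℕ) := by
        intro x y s t
        have h : x * s + y * t ≤ (x + y) * max s t := by
          rw [add_mul]
          exact Nat.add_le_add (Nat.mul_le_mul_left _ (le_max_left _ _))
            (Nat.mul_le_mul_left _ (le_max_right _ _))
        exact_mod_cast h
      rcases hom with hom | hom
      · -- complete
        obtain ⟨R, hR, hR', hRc⟩ : ∃ R : Finset V, R ⊆ U ∧ (∀ a ∈ R, ∀ b ∈ R, ¬ G.Adj a b) ∧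
            R.card = max RA.card RB.card := by
          rcases le_total RA.card RB.card with h | h
          · exact ⟨RB, r3.trans hBU, r4, (max_eq_right h).symm⟩
          · exact ⟨RA, r1.trans hAU, r2, (max_eq_left h).symm⟩
        refine ⟨QA ∪ QB, R, Finset.union_subset (q1.trans hAU) (q3.trans hBU), hR, ?_, hR', ?_⟩
        · intro a ha b hb hab
          rcases Finset.mem_union.mp ha with ha | ha <;> rcases Finset.mem_union.mp hb with hb | hb
          · exact q2 a ha b hb hab
          · exact hom a (q1 ha) b (q3 hb)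
          · exact (hom b (q1 hb) a (q3 ha)).symm
          · exact q4 a ha b hb hab
        · rw [Finset.card_union_of_disjoint (hdis _ _ q1 q3), hRc]
          exact e3.trans (comb _ _ _ _)
      · -- empty
        obtain ⟨Q, hQ, hQ', hQc⟩ : ∃ Q : Finset V, Q ⊆ U ∧
            (∀ a ∈ Q, ∀ b ∈ Q, a ≠ b → G.Adj a b) ∧ Q.card = max QA.card QB.card := by
          rcases le_total QA.card QB.card with h | h
          · exact ⟨QB, q3.trans hBU, q4, (max_eq_right h).symm⟩
          · exact ⟨QA, q1.trans hAU, q2, (max_eq_left h).symm⟩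
        refine ⟨Q, RA ∪ RB, hQ, Finset.union_subset (r1.trans hAU) (r3.trans hBU), hQ', ?_, ?_⟩
        · intro a ha b hb
          rcases Finset.mem_union.mp ha with ha | ha <;> rcases Finset.mem_union.mp hb with hb | hb
          · exact r2 a ha b hb
          · exact hom a (r1 ha) b (r3 hb)
          · exact fun h => hom b (r1 hb) a (r3 ha) h.symm
          · exact r4 a ha b hb
        · rw [Finset.card_union_of_disjoint (hdis _ _ r1 r3), hQc]
          have := comb RA.card RB.card QA.card QB.card
          calc (U.card : ℝ) ^ c ≤ _ := e3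
            _ = (RA.card : ℝ) * QA.card + (RB.card : ℝ) * QB.card := by ring
            _ ≤ _ := this
            _ = _ := by ring

theorem log_le_sqrt {x : ℝ} (hx : 0 < x) : Real.log x ≤ Real.sqrt x := by
  have hs : 0 < Real.sqrt x := Real.sqrt_pos.mpr hx
  have h1 : Real.log x = 2 * Real.log (Real.sqrt x) := by
    rw [Real.log_sqrt hx.le]; ring
  have h2 : Real.log (Real.sqrt x / 2) ≤ Real.sqrt x / 2 - 1 :=
    Real.log_le_sub_one_of_pos (by positivity)
  rw [Real.log_div hs.ne' (by norm_num)] at h2
  have h3 : Real.log 2 < 0.7 := lt_of_lt_of_le Real.log_two_lt_d9 (by norm_num)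
  linarith

theorem exponent (w : ℕ) :
    (1 : ℝ) ≤ (1 / (5 * 2 ^ w)) ^ (Real.log (w + 2) / (2 * (w + 2))) +
      (1 / 6) ^ (Real.log (w + 2) / (2 * (w + 2))) := by
  set x : ℝ := (w : ℝ) + 2 with hx
  have hx2 : 2 ≤ x := by rw [hx]; have := Nat.cast_nonneg (α := ℝ) w; linarith
  have hx0 : 0 < x := by linarith
  have hlog : 0 < Real.log x := Real.log_pos (by linarith)
  set c : ℝ := Real.log x / (2 * x) with hc
  have hc0 : 0 < c := by positivity
  have hl5 : Real.log 5 < 2 := by
    rw [Real.log_lt_iff_lt_exp (by norm_num)]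
    have h1 := Real.exp_one_gt_d9
    have h2 : Real.exp 2 = Real.exp 1 * Real.exp 1 := by rw [← Real.exp_add]; norm_num
    rw [h2]; nlinarith
  have hl6 : Real.log 6 < 2 := by
    rw [Real.log_lt_iff_lt_exp (by norm_num)]
    have h1 := Real.exp_one_gt_d9
    have h2 : Real.exp 2 = Real.exp 1 * Real.exp 1 := by rw [← Real.exp_add]; norm_num
    rw [h2]; nlinarith
  have h1 : 1 / Real.sqrt x ≤ ((1 : ℝ) / (5 * 2 ^ w)) ^ c := by
    have hpos : (0 : ℝ) < 1 / (5 * 2 ^ w) := by positivity
    rw [Real.rpow_def_of_pos hpos]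
    have hlogv : Real.log (1 / (5 * 2 ^ w)) = -(Real.log 5 + w * Real.log 2) := by
      rw [one_div, Real.log_inv, Real.log_mul (by norm_num) (by positivity), Real.log_pow]
    have h2 : Real.log 5 + w * Real.log 2 ≤ x := by
      have h3 : Real.log 2 < 1 := lt_of_lt_of_le Real.log_two_lt_d9 (by norm_num)
      have : (w : ℝ) * Real.log 2 ≤ w := by
        have := Nat.cast_nonneg (α := ℝ) w
        nlinarith
      rw [hx]; linarith
    have h4 : 1 / Real.sqrt x = Real.exp (-(Real.log x / 2)) := by
      rw [Real.exp_neg, one_div, ← Real.log_sqrt hx0.le, Real.exp_log (Real.sqrt_pos.mpr hx0)]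
    rw [h4, hlogv]
    apply Real.exp_le_exp.mpr
    have h5 : x * c = Real.log x / 2 := by rw [hc]; field_simp
    nlinarith
  have h2 : 1 - 2 * c ≤ ((1 : ℝ) / 6) ^ c := by
    rw [Real.rpow_def_of_pos (by norm_num)]
    have hlogv : Real.log (1 / 6) = -Real.log 6 := by rw [one_div, Real.log_inv]
    rw [hlogv]
    have := Real.add_one_le_exp (-Real.log 6 * c)
    nlinarith
  have h3 : 2 * c ≤ 1 / Real.sqrt x := by
    have hs : 0 < Real.sqrt x := Real.sqrt_pos.mpr hx0
    rw [le_div_iff₀ hs, hc]
    have h4 := log_le_sqrt hx0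
    have h5 : Real.sqrt x * Real.sqrt x = x := Real.mul_self_sqrt hx0.le
    rw [show 2 * (Real.log x / (2 * x)) * Real.sqrt x = Real.log x * Real.sqrt x / x by
      field_simp]
    rw [div_le_one hx0]
    nlinarith
  linarith

/-- the upper bound -/
theorem upper [Fintype V] [Nonempty V] {k w : ℕ} (G : SimpleGraph V) (hG : RankWidthLe G w)
    (hk : 2 ≤ k) (h1 : G.CliqueFree k) (h2 : Gᶜ.CliqueFree k) :
    Real.log (Fintype.card V) ≤ 4 * (w + 2) / Real.log (w + 2) * Real.log k := by
  set x : ℝ := (w : ℝ) + 2 with hx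
  have hx2 : 2 ≤ x := by rw [hx]; have := Nat.cast_nonneg (α := ℝ) w; linarith
  have hx0 : 0 < x := by linarith
  have hlog : 0 < Real.log x := Real.log_pos (by linarith)
  have hk1 : (1 : ℝ) < k := by exact_mod_cast hk
  have hlk : 0 < Real.log k := Real.log_pos hk1
  have hn : 1 ≤ Fintype.card V := Fintype.card_pos
  set n := Fintype.card V with hndef
  rcases hG with hG | hG
  · have : n = 1 := by rw [Nat.card_eq_fintype_card] at hG; omega
    rw [this, Nat.cast_one, Real.log_one]
    positivity
  set c : ℝ := Real.log x / (2 * x) with hc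
  have hc0 : 0 < c := by positivity
  have hc1 : c ≤ 1 := by
    rw [hc, div_le_one (by positivity)]
    have := Real.log_le_sub_one_of_pos hx0
    linarith
  have hne : (Finset.univ : Finset V).Nonempty := Finset.univ_nonempty
  obtain ⟨Q, R, _, _, hQ, hR, hcard⟩ := induct hG hc0.le hc1 (exponent w) _ Finset.univ rfl hne
  rw [Finset.card_univ, ← hndef] at hcard
  have hQk : Q.card ≤ k := by
    by_contra hcon
    push Not at hcon
    obtain ⟨Q', hQ', hQc⟩ := Finset.exists_subset_card_eq hcon.le
    apply h1 Q'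
    rw [SimpleGraph.isNClique_iff]
    exact ⟨fun a ha b hb hab => hQ a (hQ' ha) b (hQ' hb) hab, hQc⟩
  have hRk : R.card ≤ k := by
    by_contra hcon
    push Not at hcon
    obtain ⟨R', hR', hRc⟩ := Finset.exists_subset_card_eq hcon.le
    apply h2 R'
    rw [SimpleGraph.isNClique_iff]
    refine ⟨fun a ha b hb hab => ?_, hRc⟩
    rw [SimpleGraph.compl_adj]
    exact ⟨hab, hR a (hR' ha) b (hR' hb)⟩
  have hn0 : (0 : ℝ) < n := by exact_mod_cast hn
  have h3 : (n : ℝ) ^ c ≤ (k : ℝ) * k := by
    refine hcard.trans ?_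
    have hq : (Q.card : ℝ) ≤ k := by exact_mod_cast hQk
    have hr : (R.card : ℝ) ≤ k := by exact_mod_cast hRk
    exact mul_le_mul hq hr (Nat.cast_nonneg _) (Nat.cast_nonneg _)
  have h4 : c * Real.log n ≤ 2 * Real.log k := by
    have h5 := Real.log_le_log (Real.rpow_pos_of_pos hn0 c) h3
    rw [Real.log_rpow hn0, Real.log_mul (by linarith) (by linarith)] at h5
    linarith
  have h6 : 4 * x / Real.log x * c = 2 := by
    rw [hc]; field_simp; norm_num
  have h7 : 0 ≤ 4 * x / Real.log x := by positivity
  nlinarith [mul_le_mul_of_nonneg_left h4 h7]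

end Pool.Agent.R15.RW
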